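import Mathlib

/-!
QT6: inverse transforms. A function `S` analytic on the strip `|re z| ≤ 1` with `‖S z‖ ≤ c exp(-|im z|)`
is the two-sided Laplace transform of a continuous function `s` with `‖s y‖ ≤ c exp(-|y|)`.
Contour shift, then Fourier inversion on each line.
-/

namespace Pool.Agent.QT

open Real Filter Topology MeasureTheory Set
open scoped FourierTransform

private lemma expabs_int85 {a : ℝ} (ha : 0 < a) :
    Integrable (fun t : ℝ => Real.exp (-a * |t|)) ∧ ∫ t : ℝ, Real.exp (-a * |t|) = 2 * a⁻¹ := by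
  have key : ∫ t : ℝ, Real.exp (-a * |t|) = 2 * a⁻¹ := by
    have h := integral_comp_abs (f := fun t : ℝ => Real.exp (-a * t))
    rw [h, integral_exp_mul_Ioi (by linarith) 0]
    simp
  exact ⟨Integrable.of_integral_ne_zero (by rw [key]; positivity), key⟩

private lemma cont85 {S : ℂ → ℂ} (hS : ∀ z : ℂ, |z.re| ≤ 1 → DifferentiableAt ℂ S z) {σ : ℝ}
    (hσ : |σ| ≤ 1) {f : ℝ → ℝ} (hf : Continuous f) :
    Continuous (fun t : ℝ => S ((σ : ℂ) + (f t : ℂ) * Complex.I)) := by
  rw [continuous_iff_continuousAt]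
  intro t
  have h1 : ContinuousAt S ((σ : ℂ) + (f t : ℂ) * Complex.I) := (hS _ (by simpa using hσ)).continuousAt
  exact ContinuousAt.comp (f := fun t : ℝ => (σ : ℂ) + (f t : ℂ) * Complex.I) (g := S) h1 (by fun_prop)

private lemma c_nonneg85 {S : ℂ → ℂ} {c : ℝ}
    (hc : ∀ z : ℂ, |z.re| ≤ 1 → ‖S z‖ ≤ c * Real.exp (-|z.im|)) : 0 ≤ c := by
  have h := hc 0 (by simp)
  simp at h
  exact (norm_nonneg _).trans h

/-- the integrand on the line `re = σ` -/
private noncomputable def G85 (S : ℂ → ℂ) (y σ t : ℝ) : ℂ :=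
  S ((σ : ℂ) + (t : ℂ) * Complex.I) * Complex.exp (((σ : ℂ) + (t : ℂ) * Complex.I) * y)

private lemma G_cont85 {S : ℂ → ℂ} (hS : ∀ z : ℂ, |z.re| ≤ 1 → DifferentiableAt ℂ S z) {σ : ℝ}
    (hσ : |σ| ≤ 1) (y : ℝ) : Continuous (G85 S y σ) := by
  unfold G85
  exact (cont85 hS hσ continuous_id).mul (by fun_prop)

private lemma G_bound85 {S : ℂ → ℂ} {c : ℝ}
    (hc : ∀ z : ℂ, |z.re| ≤ 1 → ‖S z‖ ≤ c * Real.exp (-|z.im|)) {σ : ℝ} (hσ : |σ| ≤ 1) (y t : ℝ) :
    ‖G85 S y σ t‖ ≤ c * Real.exp (σ * y) * Real.exp (-1 * |t|) := by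
  have h := hc ((σ : ℂ) + (t : ℂ) * Complex.I) (by simpa using hσ)
  have him : ((σ : ℂ) + (t : ℂ) * Complex.I).im = t := by simp
  rw [him] at h
  unfold G85
  rw [norm_mul, Complex.norm_exp]
  have hre : (((σ : ℂ) + (t : ℂ) * Complex.I) * (y : ℂ)).re = σ * y := by simp
  rw [hre]
  calc _ ≤ (c * Real.exp (-|t|)) * Real.exp (σ * y) := by gcongr
    _ = _ := by rw [neg_one_mul]; ring

private lemma G_int85 {S : ℂ → ℂ} (hS : ∀ z : ℂ, |z.re| ≤ 1 → DifferentiableAt ℂ S z) {c : ℝ}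
    (hc : ∀ z : ℂ, |z.re| ≤ 1 → ‖S z‖ ≤ c * Real.exp (-|z.im|)) {σ : ℝ} (hσ : |σ| ≤ 1) (y : ℝ) :
    Integrable (G85 S y σ) := by
  refine Integrable.mono' ((expabs_int85 one_pos).1.const_mul (c * Real.exp (σ * y)))
    (G_cont85 hS hσ y).aestronglyMeasurable (Eventually.of_forall fun t => ?_)
  exact G_bound85 hc hσ y t

private lemma shift85 {S : ℂ → ℂ} (hS : ∀ z : ℂ, |z.re| ≤ 1 → DifferentiableAt ℂ S z) {c : ℝ}
    (hc : ∀ z : ℂ, |z.re| ≤ 1 → ‖S z‖ ≤ c * Real.exp (-|z.im|)) {σ : ℝ} (hσ : |σ| ≤ 1) (y : ℝ) :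
    ∫ t : ℝ, G85 S y σ t = ∫ t : ℝ, G85 S y 0 t := by
  have hc0 := c_nonneg85 hc
  have h0 : |(0:ℝ)| ≤ 1 := by simp
  have hv : ∀ τ : ℝ, |τ| ≤ 1 → Tendsto (fun T : ℝ => ∫ t in (-T)..T, G85 S y τ t) atTop
      (𝓝 (∫ t : ℝ, G85 S y τ t)) := fun τ hτ =>
    intervalIntegral_tendsto_integral (G_int85 hS hc hτ y) tendsto_neg_atTop_atBot tendsto_id
  -- the rectangle
  set F : ℂ → ℂ := fun z => S z * Complex.exp (z * y) with hF
  have hrect : ∀ T : ℝ, (∫ x in (0:ℝ)..σ, F ((x : ℂ) + ((-T : ℝ) : ℂ) * Complex.I)) -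
      (∫ x in (0:ℝ)..σ, F ((x : ℂ) + ((T : ℝ) : ℂ) * Complex.I)) +
      Complex.I • (∫ t in (-T)..T, G85 S y σ t) - Complex.I • (∫ t in (-T)..T, G85 S y 0 t) = 0 := by
    intro T
    have h := Complex.integral_boundary_rect_eq_zero_of_differentiableOn F
      (⟨0, -T⟩ : ℂ) (⟨σ, T⟩ : ℂ) (by
        intro z hz
        have hz1 : z.re ∈ Set.uIcc (0:ℝ) σ := by
          have := hz.1
          simpa using this
        have hzr : |z.re| ≤ 1 := by
          rcases Set.mem_uIcc.mp hz1 with h | h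
          · rw [abs_of_nonneg h.1]; exact h.2.trans ((le_abs_self σ).trans hσ)
          · rw [abs_of_nonpos h.2]; linarith [neg_abs_le σ, h.1]
        have hd : DifferentiableAt ℂ (fun z : ℂ => S z * Complex.exp (z * y)) z :=
          (hS z hzr).mul (by fun_prop)
        exact hd.differentiableWithinAt)
    simpa [F, G85] using h
  -- horizontal sides
  have hhor : ∀ ε : ℝ, ε = 1 ∨ ε = -1 →
      Tendsto (fun T : ℝ => ∫ x in (0:ℝ)..σ, F ((x : ℂ) + ((ε * T : ℝ) : ℂ) * Complex.I)) atTop (𝓝 0) := by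
    intro ε hε
    have hε1 : |ε| = 1 := by rcases hε with h | h <;> simp [h]
    have hb : ∀ᶠ T : ℝ in atTop, ‖∫ x in (0:ℝ)..σ, F ((x : ℂ) + ((ε * T : ℝ) : ℂ) * Complex.I)‖ ≤
        (c * Real.exp |y|) * Real.exp (-T) := by
      filter_upwards [eventually_ge_atTop (0:ℝ)] with T hT
      have h1 := intervalIntegral.norm_integral_le_of_norm_le_const (a := (0:ℝ)) (b := σ)
        (f := fun x : ℝ => F ((x : ℂ) + ((ε * T : ℝ) : ℂ) * Complex.I))
        (C := (c * Real.exp |y|) * Real.exp (-T)) (by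
          intro x hx
          have hx1 : |x| ≤ 1 := by
            rcases Set.mem_uIoc.mp hx with h | h
            · rw [abs_of_pos h.1]; exact h.2.trans ((le_abs_self σ).trans hσ)
            · rw [abs_of_nonpos h.2]; linarith [neg_abs_le σ, h.1]
          have h2 := G_bound85 hc hx1 y (ε * T)
          have h3 : F ((x : ℂ) + ((ε * T : ℝ) : ℂ) * Complex.I) = G85 S y x (ε * T) := rfl
          rw [h3]
          refine h2.trans ?_
          rw [abs_mul, hε1, one_mul, abs_of_nonneg hT, neg_one_mul]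
          have h4 : x * y ≤ |y| := by
            calc x * y ≤ |x * y| := le_abs_self _
              _ = |x| * |y| := abs_mul _ _
              _ ≤ 1 * |y| := by gcongr
              _ = |y| := one_mul _
          gcongr)
      refine h1.trans ?_
      rw [sub_zero]
      have : 0 ≤ (c * Real.exp |y|) * Real.exp (-T) := by positivity
      calc _ ≤ (c * Real.exp |y|) * Real.exp (-T) * 1 := by gcongr
        _ = _ := mul_one _
    refine squeeze_zero_norm' hb ?_
    have h5 : Tendsto (fun T : ℝ => Real.exp (-T)) atTop (𝓝 0) := Real.tendsto_exp_neg_atTop_nhds_zero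
    simpa using h5.const_mul (c * Real.exp |y|)
  have hup := hhor 1 (Or.inl rfl)
  have hdn := hhor (-1) (Or.inr rfl)
  have hlim : Tendsto (fun T : ℝ => (∫ x in (0:ℝ)..σ, F ((x : ℂ) + ((-T : ℝ) : ℂ) * Complex.I)) -
      (∫ x in (0:ℝ)..σ, F ((x : ℂ) + ((T : ℝ) : ℂ) * Complex.I)) +
      Complex.I • (∫ t in (-T)..T, G85 S y σ t) - Complex.I • (∫ t in (-T)..T, G85 S y 0 t)) atTop
      (𝓝 (0 - 0 + Complex.I • (∫ t : ℝ, G85 S y σ t) - Complex.I • (∫ t : ℝ, G85 S y 0 t))) := by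
    refine (((?_ : Tendsto _ _ _).sub ?_).add ((hv σ hσ).const_smul _)).sub ((hv 0 h0).const_smul _)
    · simpa only [neg_one_mul] using hdn
    · simpa only [one_mul] using hup
  have hz : Tendsto (fun T : ℝ => (∫ x in (0:ℝ)..σ, F ((x : ℂ) + ((-T : ℝ) : ℂ) * Complex.I)) -
      (∫ x in (0:ℝ)..σ, F ((x : ℂ) + ((T : ℝ) : ℂ) * Complex.I)) +
      Complex.I • (∫ t in (-T)..T, G85 S y σ t) - Complex.I • (∫ t in (-T)..T, G85 S y 0 t)) atTop (𝓝 0) :=
    tendsto_const_nhds.congr fun T => (hrect T).symm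
  have h6 := tendsto_nhds_unique hlim hz
  have h7 : Complex.I * ((∫ t : ℝ, G85 S y σ t) - ∫ t : ℝ, G85 S y 0 t) = 0 := by
    rw [← h6]; simp only [smul_eq_mul]; ring
  rcases mul_eq_zero.mp h7 with h | h
  · exact absurd h Complex.I_ne_zero
  · exact sub_eq_zero.mp h

theorem inv_tr {S : ℂ → ℂ} (hS : ∀ z : ℂ, |z.re| ≤ 1 → DifferentiableAt ℂ S z) {c : ℝ}
    (hc : ∀ z : ℂ, |z.re| ≤ 1 → ‖S z‖ ≤ c * Real.exp (-|z.im|)) :
    ∃ s : ℝ → ℂ, Continuous s ∧ (∀ y, ‖s y‖ ≤ c * Real.exp (-|y|)) ∧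
      ∀ z : ℂ, |z.re| < 1 → ∫ y : ℝ, Complex.exp (-z * y) * s y = S z := by
  have hc0 := c_nonneg85 hc
  have h0 : |(0:ℝ)| ≤ 1 := by simp
  have hpi := Real.pi_pos
  set s : ℝ → ℂ := fun y => (((2 * π)⁻¹ : ℝ) : ℂ) * ∫ t : ℝ, G85 S y 0 t with hs
  have hcont : Continuous s := by
    refine continuous_const.mul ?_
    refine continuous_of_dominated (F := fun y t => G85 S y 0 t)
      (bound := fun t => c * Real.exp (-1 * |t|)) ?_ ?_ ?_ ?_
    · intro y; exact (G_cont85 hS h0 y).aestronglyMeasurable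
    · intro y
      refine Eventually.of_forall fun t => ?_
      have := G_bound85 hc h0 y t
      simpa using this
    · exact (expabs_int85 one_pos).1.const_mul c
    · refine Eventually.of_forall fun t => ?_
      unfold G85
      fun_prop
  have hbd : ∀ y, ‖s y‖ ≤ c * Real.exp (-|y|) := by
    have key : ∀ σ : ℝ, |σ| ≤ 1 → ∀ y, ‖s y‖ ≤ c * Real.exp (σ * y) := by
      intro σ hσ y
      simp only [hs]
      rw [norm_mul, Complex.norm_real, Real.norm_eq_abs, abs_of_pos (by positivity), ← shift85 hS hc hσ y]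
      have h1 := norm_integral_le_of_norm_le (μ := volume) (f := G85 S y σ)
        ((expabs_int85 one_pos).1.const_mul (c * Real.exp (σ * y)))
        (Eventually.of_forall fun t => G_bound85 hc hσ y t)
      rw [integral_const_mul, (expabs_int85 one_pos).2] at h1
      calc (2 * π)⁻¹ * ‖∫ t : ℝ, G85 S y σ t‖ ≤ (2 * π)⁻¹ * (c * Real.exp (σ * y) * (2 * 1⁻¹)) := by gcongr
        _ = π⁻¹ * (c * Real.exp (σ * y)) := by field_simp
        _ ≤ 1 * (c * Real.exp (σ * y)) := by
            gcongr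
            rw [inv_le_one₀ hpi]
            linarith [Real.pi_gt_three]
        _ = _ := one_mul _
    intro y
    rcases le_total 0 y with h | h
    · have := key (-1) (by simp) y
      rw [abs_of_nonneg h]
      rwa [neg_one_mul] at this
    · have := key 1 (by simp) y
      rw [abs_of_nonpos h, neg_neg]
      rwa [one_mul] at this
  refine ⟨s, hcont, hbd, fun z hz => ?_⟩
  set σ := z.re with hσdef
  have hσ : |σ| ≤ 1 := hz.le
  set f : ℝ → ℂ := fun v => S ((σ : ℂ) + ((2 * π * v : ℝ) : ℂ) * Complex.I) with hf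
  have hfc : Continuous f := cont85 hS hσ (by fun_prop)
  have hfi : Integrable f := by
    have h2 : Integrable (fun v : ℝ => c * Real.exp (-(2 * π) * |v|)) :=
      (expabs_int85 (by positivity)).1.const_mul c
    refine Integrable.mono' h2 hfc.aestronglyMeasurable (Eventually.of_forall fun v => ?_)
    have h3 := hc ((σ : ℂ) + ((2 * π * v : ℝ) : ℂ) * Complex.I) (by simpa using hσ)
    have him : ((σ : ℂ) + ((2 * π * v : ℝ) : ℂ) * Complex.I).im = 2 * π * v := by simp
    rw [him, abs_mul, abs_of_pos (by positivity : 0 < 2 * π)] at h3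
    refine h3.trans_eq ?_
    rw [neg_mul]
  have hinv : ∀ y : ℝ, 𝓕⁻ f y = Complex.exp (-(σ * y : ℝ)) * s y := by
    intro y
    rw [Real.fourierInv_eq']
    simp only [hs]
    rw [← shift85 hS hc hσ y]
    have h5 : ∫ v : ℝ, G85 S y σ (2 * π * v) = (((2 * π)⁻¹ : ℝ) : ℂ) * ∫ t : ℝ, G85 S y σ t := by
      have := MeasureTheory.Measure.integral_comp_mul_left (G85 S y σ) (2 * π)
      rw [this, abs_of_pos (by positivity)]
      simp
    rw [← h5, ← integral_const_mul]
    congr 1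
    ext v
    simp only [hf, G85, smul_eq_mul]
    rw [mul_comm (Complex.exp _) (S _), mul_left_comm, ← Complex.exp_add]
    congr 2
    simp
    ring
  have hinvi : Integrable (𝓕⁻ f) := by
    have h1 : 𝓕⁻ f = fun y : ℝ => Complex.exp (-(σ * y : ℝ)) * s y := by
      ext y; exact hinv y
    rw [h1]
    have h2 : Integrable (fun y : ℝ => c * Real.exp (-(1 - |σ|) * |y|)) :=
      (expabs_int85 (by linarith : 0 < 1 - |σ|)).1.const_mul c
    refine Integrable.mono' h2 ?_ (Eventually.of_forall fun y => ?_)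
    · exact Continuous.aestronglyMeasurable (by fun_prop)
    · rw [norm_mul, Complex.norm_exp]
      have h3 : (-((σ * y : ℝ) : ℂ)).re = -(σ * y) := by simp
      rw [h3]
      have h4 : -(σ * y) ≤ |σ| * |y| := by rw [← abs_mul]; exact neg_le_abs _
      calc Real.exp (-(σ * y)) * ‖s y‖ ≤ Real.exp (|σ| * |y|) * (c * Real.exp (-|y|)) := by
            gcongr
            exact hbd y
        _ = c * (Real.exp (|σ| * |y|) * Real.exp (-|y|)) := by ring
        _ = c * Real.exp (-(1 - |σ|) * |y|) := by rw [← Real.exp_add]; congr 2; ring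
  have hfou : Integrable (𝓕 f) := by
    have h1 : 𝓕 f = fun y : ℝ => 𝓕⁻ f (-y) := by
      ext y
      rw [Real.fourierInv_eq_fourier_neg, neg_neg]
    rw [h1]
    exact hinvi.comp_neg
  have hfin := hfi.fourier_fourierInv_eq hfou (v := z.im / (2 * π)) hfc.continuousAt
  have hfz : f (z.im / (2 * π)) = S z := by
    simp only [hf]
    congr 1
    have : 2 * π * (z.im / (2 * π)) = z.im := by field_simp
    rw [this, hσdef]
    exact Complex.re_add_im z
  rw [hfz, Real.fourier_real_eq_integral_exp_smul] at hfin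
  rw [← hfin]
  congr 1
  ext y
  rw [hinv y, smul_eq_mul, ← mul_assoc (Complex.exp _) (Complex.exp _) (s y), ← Complex.exp_add]
  congr 2
  have hz2 : z = (σ : ℂ) + (z.im : ℂ) * Complex.I := by
    rw [hσdef]; exact (Complex.re_add_im z).symm
  have h8 : -2 * π * y * (z.im / (2 * π)) = -(y * z.im) := by field_simp
  rw [h8]
  conv_lhs => rw [hz2]
  push_cast
  ring

end Pool.Agent.QT
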